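import Mathlib

set_option autoImplicit false

/-!
# Density of smooth complete intersections

Every system of forms can be approximated by systems of forms of the same degrees whose gradients
are linearly independent at all common zeros.  The proof is a dimension count.
-/

open MvPolynomial Topology

namespace Pool.Agent.H17S

section
variable {N c : ℕ}

/-- Scaling of the values of a form. -/
lemma eval_smul_hom {σ : Type} [Fintype σ] {P : MvPolynomial σ ℂ} {n : ℕ}
    (hP : P.IsHomogeneous n) (t : ℂ) (x : σ → ℂ) :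
    eval (fun i => t * x i) P = t ^ n * eval x P := by
  rw [eval_eq', eval_eq', Finset.mul_sum]
  refine Finset.sum_congr rfl fun m hm => ?_
  have h1 : m.degree = n := by
    have := hP (mem_support_iff.1 hm)
    rw [Finsupp.degree_eq_weight_one]
    exact this
  have h2 : ∑ i, m i = n := by
    rw [← h1, Finsupp.degree_eq_sum]
  simp only [mul_pow, Finset.prod_mul_distrib, Finset.prod_pow_eq_pow_sum, h2]
  ring

/-- The index set of the perturbation. -/
abbrev Idx (N c : ℕ) : Type := Fin c × Fin (N + 1) × Fin (N + 1)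

/-- The perturbed system. -/
noncomputable def pert (d : Fin c → ℕ) (G₀ : Fin c → MvPolynomial (Fin (N + 1)) ℂ)
    (a : Idx N c → ℂ) (l : Fin c) : MvPolynomial (Fin (N + 1)) ℂ :=
  G₀ l + ∑ i, ∑ j, C (a (l, i, j)) * (X j * X i ^ (d l - 1))

lemma pert_hom {d : Fin c → ℕ} (hd : ∀ l, 1 ≤ d l)
    {G₀ : Fin c → MvPolynomial (Fin (N + 1)) ℂ} (hG₀ : ∀ l, (G₀ l).IsHomogeneous (d l))
    (a : Idx N c → ℂ) (l : Fin c) : (pert d G₀ a l).IsHomogeneous (d l) := by
  refine (hG₀ l).add ?_
  refine IsHomogeneous.sum _ _ _ fun i _ => IsHomogeneous.sum _ _ _ fun j _ => ?_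
  have h1 := (isHomogeneous_X ℂ j).mul ((isHomogeneous_X ℂ i).pow (d l - 1))
  have h2 := (isHomogeneous_C (Fin (N + 1)) (a (l, i, j))).mul h1
  have e : 0 + (1 + 1 * (d l - 1)) = d l := by
    have := hd l
    omega
  rwa [e] at h2

lemma eval_pert (d : Fin c → ℕ) (G₀ : Fin c → MvPolynomial (Fin (N + 1)) ℂ)
    (a : Idx N c → ℂ) (l : Fin c) (x : Fin (N + 1) → ℂ) :
    eval x (pert d G₀ a l) =
      eval x (G₀ l) + ∑ i, ∑ j, a (l, i, j) * (x j * x i ^ (d l - 1)) := by
  simp [pert, map_sum]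

/-- The derivatives of the perturbing monomials. -/
noncomputable def dmon (d : Fin c → ℕ) (l : Fin c) (i j j' : Fin (N + 1)) (x : Fin (N + 1) → ℂ) :
    ℂ := eval x (pderiv j' (X j * X i ^ (d l - 1)))

lemma eval_pderiv_pert (d : Fin c → ℕ) (G₀ : Fin c → MvPolynomial (Fin (N + 1)) ℂ)
    (a : Idx N c → ℂ) (l : Fin c) (j' : Fin (N + 1)) (x : Fin (N + 1) → ℂ) :
    eval x (pderiv j' (pert d G₀ a l)) =
      eval x (pderiv j' (G₀ l)) + ∑ i, ∑ j, a (l, i, j) * dmon d l i j j' x := by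
  simp only [pert, map_add, map_sum, pderiv_C_mul, map_mul, eval_C, dmon]

lemma dmon_of_one {d : Fin c → ℕ} {l : Fin c} {i j j' : Fin (N + 1)} {x : Fin (N + 1) → ℂ}
    (hx : x i = 1) (hj : j' ≠ i) : dmon d l i j j' x = if j = j' then 1 else 0 := by
  have h1 : pderiv j' (X i : MvPolynomial (Fin (N + 1)) ℂ) = 0 := pderiv_X_of_ne (Ne.symm hj)
  simp only [dmon, pderiv_mul, pderiv_pow, h1, mul_zero, add_zero, map_mul, map_pow, eval_X, hx,
    one_pow, mul_one]
  by_cases h : j = j'
  · subst h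
    simp
  · rw [if_neg h, pderiv_X_of_ne h, map_zero]

/-! ### Smoothness of evaluation -/

lemma contDiff_eval {E : Type} [NormedAddCommGroup E] [NormedSpace ℝ E]
    {x : E → Fin (N + 1) → ℂ} (hx : ∀ j, ContDiff ℝ 1 fun v => x v j)
    (P : MvPolynomial (Fin (N + 1)) ℂ) : ContDiff ℝ 1 fun v => eval (x v) P := by
  induction P using MvPolynomial.induction_on with
  | C z => simpa using contDiff_const
  | add p q hp hq => simpa using hp.add hq
  | mul_X p j hp => simpa using hp.mul (hx j)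

/-! ### The elimination map -/

/-- Index set of the unknowns: coordinates of the point, multipliers, parameters. -/
abbrev Unk (N c : ℕ) : Type := Fin (N + 1) ⊕ Fin c ⊕ Idx N c

/-- The point. -/
noncomputable def pt (i : Fin (N + 1)) (v : Unk N c → ℂ) (j : Fin (N + 1)) : ℂ :=
  if j = i then 1 else v (Sum.inl j)

/-- The multipliers. -/
noncomputable def mult (l₀ : Fin c) (v : Unk N c → ℂ) (k : Fin c) : ℂ :=
  if k = l₀ then 1 else v (Sum.inr (Sum.inl k))

/-- The derivatives without the terms with first index `i`. -/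
noncomputable def RR (d : Fin c → ℕ) (G₀ : Fin c → MvPolynomial (Fin (N + 1)) ℂ)
    (i : Fin (N + 1)) (v : Unk N c → ℂ) (l : Fin c) (j : Fin (N + 1)) : ℂ :=
  eval (pt i v) (pderiv j (G₀ l)) + ∑ i', ∑ j', if i' = i then 0 else
    v (Sum.inr (Sum.inr (l, i', j'))) * dmon d l i' j' j (pt i v)

/-- The parameter `(l₀, i, j)`, `j ≠ i`, expressed by the free unknowns. -/
noncomputable def BB (d : Fin c → ℕ) (G₀ : Fin c → MvPolynomial (Fin (N + 1)) ℂ)
    (i : Fin (N + 1)) (l₀ : Fin c) (v : Unk N c → ℂ) (j : Fin (N + 1)) : ℂ :=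
  -RR d G₀ i v l₀ j - ∑ k, if k = l₀ then 0 else
    mult l₀ v k * (RR d G₀ i v k j + v (Sum.inr (Sum.inr (k, i, j))))

/-- The parameters except those with indices `(k, i, i)`. -/
noncomputable def AA (d : Fin c → ℕ) (G₀ : Fin c → MvPolynomial (Fin (N + 1)) ℂ)
    (i : Fin (N + 1)) (l₀ : Fin c) (v : Unk N c → ℂ) (t : Idx N c) : ℂ :=
  if t.1 = l₀ ∧ t.2.1 = i then BB d G₀ i l₀ v t.2.2 else v (Sum.inr (Sum.inr t))

/-- The parameter `(l, i, i)` expressed by the free unknowns. -/
noncomputable def EE (d : Fin c → ℕ) (G₀ : Fin c → MvPolynomial (Fin (N + 1)) ℂ)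
    (i : Fin (N + 1)) (l₀ : Fin c) (v : Unk N c → ℂ) (l : Fin c) : ℂ :=
  -(eval (pt i v) (G₀ l) + ∑ i', ∑ j', if i' = i ∧ j' = i then 0 else
    AA d G₀ i l₀ v (l, i', j') * (pt i v j' * pt i v i' ^ (d l - 1)))

/-- The elimination map. -/
noncomputable def Elim (d : Fin c → ℕ) (G₀ : Fin c → MvPolynomial (Fin (N + 1)) ℂ)
    (i : Fin (N + 1)) (l₀ : Fin c) (v : Unk N c → ℂ) (t : Idx N c) : ℂ :=
  if t.2.1 = i ∧ t.2.2 = i then EE d G₀ i l₀ v t.1 else AA d G₀ i l₀ v t

lemma contDiff_coord (s : Unk N c) : ContDiff ℝ 1 fun v : Unk N c → ℂ => v s :=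
  contDiff_apply ℝ ℂ s

lemma contDiff_pt (i j : Fin (N + 1)) : ContDiff ℝ 1 fun v : Unk N c → ℂ => pt i v j := by
  unfold pt
  split_ifs
  · exact contDiff_const
  · exact contDiff_coord _

lemma contDiff_mult (l₀ k : Fin c) : ContDiff ℝ 1 fun v : Unk N c → ℂ => mult l₀ v k := by
  unfold mult
  split_ifs
  · exact contDiff_const
  · exact contDiff_coord _

lemma contDiff_RR (d : Fin c → ℕ) (G₀ : Fin c → MvPolynomial (Fin (N + 1)) ℂ)
    (i : Fin (N + 1)) (l : Fin c) (j : Fin (N + 1)) :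
    ContDiff ℝ 1 fun v : Unk N c → ℂ => RR d G₀ i v l j := by
  unfold RR
  refine (contDiff_eval (contDiff_pt i) _).add ?_
  refine ContDiff.sum fun i' _ => ContDiff.sum fun j' _ => ?_
  split_ifs
  · exact contDiff_const
  · exact (contDiff_coord _).mul (contDiff_eval (contDiff_pt i) _)

lemma contDiff_BB (d : Fin c → ℕ) (G₀ : Fin c → MvPolynomial (Fin (N + 1)) ℂ)
    (i : Fin (N + 1)) (l₀ : Fin c) (j : Fin (N + 1)) :
    ContDiff ℝ 1 fun v : Unk N c → ℂ => BB d G₀ i l₀ v j := by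
  unfold BB
  refine (contDiff_RR d G₀ i l₀ j).neg.sub ?_
  refine ContDiff.sum fun k _ => ?_
  split_ifs
  · exact contDiff_const
  · exact (contDiff_mult l₀ k).mul ((contDiff_RR d G₀ i k j).add (contDiff_coord _))

lemma contDiff_AA (d : Fin c → ℕ) (G₀ : Fin c → MvPolynomial (Fin (N + 1)) ℂ)
    (i : Fin (N + 1)) (l₀ : Fin c) (t : Idx N c) :
    ContDiff ℝ 1 fun v : Unk N c → ℂ => AA d G₀ i l₀ v t := by
  unfold AA
  split_ifs
  · exact contDiff_BB d G₀ i l₀ _
  · exact contDiff_coord _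

lemma contDiff_EE (d : Fin c → ℕ) (G₀ : Fin c → MvPolynomial (Fin (N + 1)) ℂ)
    (i : Fin (N + 1)) (l₀ l : Fin c) :
    ContDiff ℝ 1 fun v : Unk N c → ℂ => EE d G₀ i l₀ v l := by
  unfold EE
  refine ((contDiff_eval (contDiff_pt i) _).add ?_).neg
  refine ContDiff.sum fun i' _ => ContDiff.sum fun j' _ => ?_
  split_ifs
  · exact contDiff_const
  · exact (contDiff_AA d G₀ i l₀ _).mul ((contDiff_pt i j').mul ((contDiff_pt i i').pow _))

lemma contDiff_Elim (d : Fin c → ℕ) (G₀ : Fin c → MvPolynomial (Fin (N + 1)) ℂ)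
    (i : Fin (N + 1)) (l₀ : Fin c) :
    ContDiff ℝ 1 fun v : Unk N c → ℂ => Elim d G₀ i l₀ v := by
  rw [contDiff_pi]
  intro t
  unfold Elim
  split_ifs
  · exact contDiff_EE d G₀ i l₀ _
  · exact contDiff_AA d G₀ i l₀ _

/-- The free unknowns. -/
def Free (i : Fin (N + 1)) (l₀ : Fin c) : Unk N c → Prop
  | Sum.inl j => j ≠ i
  | Sum.inr (Sum.inl k) => k ≠ l₀
  | Sum.inr (Sum.inr t) => ¬ (t.2.1 = i ∧ (t.2.2 = i ∨ t.1 = l₀))

noncomputable instance decFree (i : Fin (N + 1)) (l₀ : Fin c) : DecidablePred (Free (N := N) i l₀) :=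
  Classical.decPred _

/-- Placement of the free unknowns into the parameter slots. -/
def place (i : Fin (N + 1)) (l₀ : Fin c) : Unk N c → Idx N c
  | Sum.inl j => (l₀, i, j)
  | Sum.inr (Sum.inl k) => (k, i, i)
  | Sum.inr (Sum.inr t) => t

lemma card_free_lt (i : Fin (N + 1)) (l₀ : Fin c) :
    Nat.card {s : Unk N c // Free i l₀ s} < Nat.card (Idx N c) := by
  classical
  rw [Nat.card_eq_fintype_card, Nat.card_eq_fintype_card]
  have hinj : Function.Injective (fun s : {s : Unk N c // Free i l₀ s} => place i l₀ s.1) := by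
    rintro ⟨s, hs⟩ ⟨s', hs'⟩ h
    rw [Subtype.mk_eq_mk]
    rcases s with j | k | t <;> rcases s' with j' | k' | t' <;>
      simp only [place, Free] at h hs hs'
    · simp only [Prod.mk.injEq, true_and] at h
      rw [h]
    · simp only [Prod.mk.injEq, true_and] at h
      exact absurd h.2 hs
    · subst h
      simp at hs'
    · simp only [Prod.mk.injEq, true_and] at h
      exact absurd h.2.symm hs'
    · simp only [Prod.mk.injEq, and_true] at h
      rw [h]
    · subst h
      simp at hs'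
    · subst h
      simp at hs
    · subst h
      simp at hs
    · rw [h]
  refine Fintype.card_lt_of_injective_of_notMem _ hinj (b := (l₀, i, i)) ?_
  rintro ⟨⟨s, hs⟩, h⟩
  rcases s with j | k | t <;> simp only [place, Free] at h hs
  · simp only [Prod.mk.injEq, true_and] at h
    exact hs h
  · simp only [Prod.mk.injEq, and_true] at h
    exact hs h
  · subst h
    simp at hs

/-- Extension by zero. -/
noncomputable def ext0 (i : Fin (N + 1)) (l₀ : Fin c) (w : {s : Unk N c // Free i l₀ s} → ℂ)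
    (s : Unk N c) : ℂ := if h : Free i l₀ s then w ⟨s, h⟩ else 0

lemma contDiff_ext0 (i : Fin (N + 1)) (l₀ : Fin c) :
    ContDiff ℝ 1 (ext0 (N := N) (c := c) i l₀) := by
  classical
  rw [contDiff_pi]
  intro s
  unfold ext0
  split_ifs
  · exact contDiff_apply ℝ ℂ _
  · exact contDiff_const

lemma dimH_range_Elim (d : Fin c → ℕ) (G₀ : Fin c → MvPolynomial (Fin (N + 1)) ℂ)
    (i : Fin (N + 1)) (l₀ : Fin c) :
    dimH (Set.range fun w => Elim d G₀ i l₀ (ext0 i l₀ w)) <
      Module.finrank ℝ (Idx N c → ℂ) := by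
  classical
  have h1 : ContDiff ℝ 1 fun w => Elim d G₀ i l₀ (ext0 i l₀ w) :=
    (contDiff_Elim d G₀ i l₀).comp (contDiff_ext0 i l₀)
  refine lt_of_le_of_lt h1.dimH_range_le ?_
  have h2 := card_free_lt i l₀
  rw [Nat.card_eq_fintype_card, Nat.card_eq_fintype_card] at h2
  rw [Module.finrank_pi_fintype, Module.finrank_pi_fintype]
  simp only [Complex.finrank_real_complex, Finset.sum_const, Finset.card_univ, smul_eq_mul]
  exact_mod_cast by omega

lemma sum_split (i : Fin (N + 1)) (F : Fin (N + 1) → Fin (N + 1) → ℂ) :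
    ∑ i', ∑ j', F i' j' =
      (∑ i', ∑ j', if i' = i ∧ j' = i then 0 else F i' j') + F i i := by
  classical
  have h1 : ∀ i' j', F i' j' = (if i' = i ∧ j' = i then 0 else F i' j') +
      (if i' = i then (if j' = i then F i' j' else 0) else 0) := by
    intro i' j'
    by_cases h : i' = i <;> by_cases h' : j' = i <;> simp [h, h']
  calc ∑ i', ∑ j', F i' j' = ∑ i', ∑ j', ((if i' = i ∧ j' = i then 0 else F i' j') +
      (if i' = i then (if j' = i then F i' j' else 0) else 0)) :=
        Finset.sum_congr rfl fun i' _ => Finset.sum_congr rfl fun j' _ => h1 i' j'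
    _ = _ := by
      simp only [Finset.sum_add_distrib]
      congr 1
      rw [Finset.sum_eq_single i]
      · simp
      · intro b _ hb
        simp [hb]
      · simp

lemma sum_split' (i : Fin (N + 1)) (F : Fin (N + 1) → Fin (N + 1) → ℂ) :
    ∑ i', ∑ j', F i' j' =
      (∑ i', ∑ j', if i' = i then 0 else F i' j') + ∑ j', F i j' := by
  classical
  have h1 : ∀ i' j', F i' j' = (if i' = i then 0 else F i' j') +
      (if i' = i then F i' j' else 0) := by
    intro i' j'
    by_cases h : i' = i <;> simp [h]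
  calc ∑ i', ∑ j', F i' j' = ∑ i', ∑ j', ((if i' = i then 0 else F i' j') +
      (if i' = i then F i' j' else 0)) :=
        Finset.sum_congr rfl fun i' _ => Finset.sum_congr rfl fun j' _ => h1 i' j'
    _ = _ := by
      simp only [Finset.sum_add_distrib]
      congr 1
      rw [Finset.sum_eq_single i]
      · simp
      · intro b _ hb
        simp [hb]
      · simp

/-- The parameters of a singular system are in the range of the elimination map. -/
lemma elim_eq {d : Fin c → ℕ} {G₀ : Fin c → MvPolynomial (Fin (N + 1)) ℂ} {i : Fin (N + 1)}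
    {l₀ : Fin c} {a : Idx N c → ℂ} {x : Fin (N + 1) → ℂ} {α : Fin c → ℂ} (hx : x i = 1)
    (hα : α l₀ = 1) (h0 : ∀ l, eval x (pert d G₀ a l) = 0)
    (h1 : ∀ j, ∑ l, α l * eval x (pderiv j (pert d G₀ a l)) = 0) :
    Elim d G₀ i l₀ (ext0 i l₀ fun s => (Sum.elim x (Sum.elim α a) : Unk N c → ℂ) s.1) = a := by
  classical
  set v : Unk N c → ℂ :=
    ext0 i l₀ fun s => (Sum.elim x (Sum.elim α a) : Unk N c → ℂ) s.1 with hv
  have hvf : ∀ s, Free i l₀ s → v s = (Sum.elim x (Sum.elim α a) : Unk N c → ℂ) s := by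
    intro s hs
    simp only [hv, ext0, dif_pos hs]
  have hpt : pt i v = x := by
    funext j
    unfold pt
    by_cases h : j = i
    · rw [if_pos h, h, hx]
    · rw [if_neg h, hvf (Sum.inl j) h]
      rfl
  have hmult : mult l₀ v = α := by
    funext k
    unfold mult
    by_cases h : k = l₀
    · rw [if_pos h, h, hα]
    · rw [if_neg h, hvf (Sum.inr (Sum.inl k)) h]
      rfl
  have hva : ∀ t : Idx N c, ¬ (t.2.1 = i ∧ (t.2.2 = i ∨ t.1 = l₀)) →
      v (Sum.inr (Sum.inr t)) = a t := by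
    intro t ht
    rw [hvf (Sum.inr (Sum.inr t)) ht]
    rfl
  -- the derivatives
  have hRR : ∀ l j, j ≠ i → eval x (pderiv j (pert d G₀ a l)) = RR d G₀ i v l j + a (l, i, j) := by
    intro l j hj
    rw [eval_pderiv_pert, sum_split' i, RR, hpt, add_assoc]
    congr 2
    · refine Finset.sum_congr rfl fun i' _ => Finset.sum_congr rfl fun j' _ => ?_
      by_cases h : i' = i
      · rw [if_pos h, if_pos h]
      · rw [if_neg h, if_neg h, hva (l, i', j') (fun h' => h h'.1)]
    · rw [Finset.sum_eq_single j]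
      · rw [dmon_of_one hx hj, if_pos rfl, mul_one]
      · intro b _ hb
        rw [dmon_of_one hx hj, if_neg hb, mul_zero]
      · simp
  have hBB : ∀ j, j ≠ i → BB d G₀ i l₀ v j = a (l₀, i, j) := by
    intro j hj
    have h2 := h1 j
    rw [Finset.sum_congr rfl fun l _ => by rw [hRR l j hj]] at h2
    have h3 : ∑ l, α l * (RR d G₀ i v l j + a (l, i, j)) =
        (∑ l, if l = l₀ then 0 else α l * (RR d G₀ i v l j + a (l, i, j))) +
          (RR d G₀ i v l₀ j + a (l₀, i, j)) := by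
      have h4 : ∀ l, α l * (RR d G₀ i v l j + a (l, i, j)) =
          (if l = l₀ then 0 else α l * (RR d G₀ i v l j + a (l, i, j))) +
            (if l = l₀ then (RR d G₀ i v l₀ j + a (l₀, i, j)) else 0) := by
        intro l
        by_cases h : l = l₀
        · rw [if_pos h, if_pos h, h, hα]
          ring
        · rw [if_neg h, if_neg h, add_zero]
      rw [Finset.sum_congr rfl fun l _ => h4 l, Finset.sum_add_distrib]
      simp
    rw [h3] at h2
    unfold BB
    rw [hmult]
    have h5 : ∀ k, (if k = l₀ then 0 else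
        α k * (RR d G₀ i v k j + v (Sum.inr (Sum.inr (k, i, j))))) =
        (if k = l₀ then 0 else α k * (RR d G₀ i v k j + a (k, i, j))) := by
      intro k
      by_cases h : k = l₀
      · rw [if_pos h, if_pos h]
      · rw [if_neg h, if_neg h, hva (k, i, j) (by
          rintro ⟨_, h' | h'⟩
          · exact hj h'
          · exact h h')]
    rw [Finset.sum_congr rfl fun k _ => h5 k]
    linear_combination -h2
  have hAA : ∀ t : Idx N c, ¬ (t.2.1 = i ∧ t.2.2 = i) → AA d G₀ i l₀ v t = a t := by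
    intro t ht
    unfold AA
    by_cases h : t.1 = l₀ ∧ t.2.1 = i
    · rw [if_pos h, hBB _ (fun h' => ht ⟨h.2, h'⟩)]
      obtain ⟨t1, t2, t3⟩ := t
      simp only at h
      rw [h.1, h.2]
    · rw [if_neg h, hva t]
      rintro ⟨h2, h3 | h3⟩
      · exact ht ⟨h2, h3⟩
      · exact h ⟨h3, h2⟩
  have hEE : ∀ l, EE d G₀ i l₀ v l = a (l, i, i) := by
    intro l
    have h2 := h0 l
    rw [eval_pert, sum_split i, hx, one_pow, mul_one, mul_one] at h2
    unfold EE
    rw [hpt]
    have h3 : ∀ i' j', (if i' = i ∧ j' = i then 0 else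
        AA d G₀ i l₀ v (l, i', j') * (x j' * x i' ^ (d l - 1))) =
        (if i' = i ∧ j' = i then 0 else a (l, i', j') * (x j' * x i' ^ (d l - 1))) := by
      intro i' j'
      by_cases h : i' = i ∧ j' = i
      · rw [if_pos h, if_pos h]
      · rw [if_neg h, if_neg h, hAA (l, i', j') h]
    rw [Finset.sum_congr rfl fun i' _ => Finset.sum_congr rfl fun j' _ => h3 i' j']
    linear_combination -h2
  funext t
  unfold Elim
  by_cases h : t.2.1 = i ∧ t.2.2 = i
  · rw [if_pos h, hEE]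
    obtain ⟨t1, t2, t3⟩ := t
    simp only at h
    rw [h.1, h.2]
  · rw [if_neg h, hAA t h]

/-- The coefficients of the perturbation are small. -/
lemma norm_coeff_pert_le (d : Fin c → ℕ) (G₀ : Fin c → MvPolynomial (Fin (N + 1)) ℂ)
    (a : Idx N c → ℂ) (l : Fin c) (m : Fin (N + 1) →₀ ℕ) :
    ‖(pert d G₀ a l).coeff m - (G₀ l).coeff m‖ ≤ ((N + 1) * (N + 1) : ℕ) * ‖a‖ := by
  classical
  have h1 : (pert d G₀ a l).coeff m - (G₀ l).coeff m =
      ∑ i, ∑ j, a (l, i, j) * (X j * X i ^ (d l - 1) : MvPolynomial (Fin (N + 1)) ℂ).coeff m := by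
    simp only [pert, coeff_add, coeff_sum, coeff_C_mul]
    ring
  have h2 : ∀ i j : Fin (N + 1),
      ‖(X j * X i ^ (d l - 1) : MvPolynomial (Fin (N + 1)) ℂ).coeff m‖ ≤ 1 := by
    intro i j
    have h3 : (X j * X i ^ (d l - 1) : MvPolynomial (Fin (N + 1)) ℂ) =
        monomial (Finsupp.single j 1 + Finsupp.single i (d l - 1)) 1 := by
      rw [X_pow_eq_monomial, X, monomial_mul, one_mul]
    rw [h3, coeff_monomial]
    split_ifs <;> simp
  rw [h1]
  calc ‖∑ i, ∑ j, a (l, i, j) * (X j * X i ^ (d l - 1) : MvPolynomial (Fin (N + 1)) ℂ).coeff m‖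
      ≤ ∑ _i : Fin (N + 1), ∑ _j : Fin (N + 1), ‖a‖ := by
        refine norm_sum_le_of_le _ fun i _ => norm_sum_le_of_le _ fun j _ => ?_
        rw [norm_mul]
        calc ‖a (l, i, j)‖ * ‖(X j * X i ^ (d l - 1) : MvPolynomial (Fin (N + 1)) ℂ).coeff m‖
            ≤ ‖a‖ * 1 := mul_le_mul (norm_le_pi_norm a _) (h2 i j) (norm_nonneg _) (norm_nonneg _)
          _ = ‖a‖ := mul_one _
    _ = ((N + 1) * (N + 1) : ℕ) * ‖a‖ := by
        simp only [Finset.sum_const, Finset.card_univ, Fintype.card_fin, nsmul_eq_mul]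
        push_cast
        ring

/-- **Density of smooth complete intersections.** -/
theorem exists_smooth_near {N c : ℕ} {d : Fin c → ℕ} (hd : ∀ l, 1 ≤ d l)
    {G₀ : Fin c → MvPolynomial (Fin (N + 1)) ℂ} (hG₀ : ∀ l, (G₀ l).IsHomogeneous (d l))
    {ε : ℝ} (hε : 0 < ε) :
    ∃ G : Fin c → MvPolynomial (Fin (N + 1)) ℂ, (∀ l, (G l).IsHomogeneous (d l)) ∧
      (∀ l m, ‖(G l).coeff m - (G₀ l).coeff m‖ < ε) ∧
      ∀ x : Fin (N + 1) → ℂ, x ≠ 0 → (∀ l, MvPolynomial.eval x (G l) = 0) →
        ∀ α : Fin c → ℂ,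
          (∀ j, ∑ l, α l * MvPolynomial.eval x (MvPolynomial.pderiv j (G l)) = 0) → α = 0 := by
  classical
  rcases Nat.eq_zero_or_pos c with hc | hc
  · subst hc
    exact ⟨G₀, hG₀, fun l => Fin.elim0 l, fun x _ _ α _ => Subsingleton.elim _ _⟩
  have : Nonempty (Fin c) := ⟨⟨0, hc⟩⟩
  set Bad : Set (Idx N c → ℂ) := ⋃ p : Fin (N + 1) × Fin c,
    Set.range fun w => Elim d G₀ p.1 p.2 (ext0 p.1 p.2 w) with hBad
  have hdim : dimH Bad < Module.finrank ℝ (Idx N c → ℂ) := by
    rw [hBad, dimH_iUnion]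
    have hfin : (Set.range fun p : Fin (N + 1) × Fin c =>
        dimH (Set.range fun w => Elim d G₀ p.1 p.2 (ext0 p.1 p.2 w))).Finite := Set.finite_range _
    obtain ⟨p, hp⟩ := (Set.range_nonempty _).csSup_mem hfin
    rw [iSup, ← hp]
    exact dimH_range_Elim d G₀ p.1 p.2
  have hdense := dense_compl_of_dimH_lt_finrank hdim
  set K : ℝ := (((N + 1) * (N + 1) : ℕ) : ℝ) + 1 with hK
  have hK0 : 0 < K := by positivity
  obtain ⟨a, haB, han⟩ := hdense.exists_dist_lt (0 : Idx N c → ℂ) (div_pos hε hK0)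
  rw [dist_zero_left] at han
  refine ⟨pert d G₀ a, pert_hom hd hG₀ a, ?_, ?_⟩
  · intro l m
    refine lt_of_le_of_lt (norm_coeff_pert_le d G₀ a l m) ?_
    have h1 : ‖a‖ * K < ε := by rwa [lt_div_iff₀ hK0] at han
    have h2 : 0 ≤ ‖a‖ := norm_nonneg _
    rw [hK] at h1
    nlinarith
  · intro x hx h0 α h1
    by_contra hα
    obtain ⟨i, hi⟩ : ∃ i, x i ≠ 0 := by
      by_contra h
      push Not at h
      exact hx (funext h)
    obtain ⟨l₀, hl⟩ : ∃ l, α l ≠ 0 := by
      by_contra h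
      push Not at h
      exact hα (funext h)
    apply haB
    rw [hBad, Set.mem_iUnion]
    set x' : Fin (N + 1) → ℂ := fun j => (x i)⁻¹ * x j with hx'
    set α' : Fin c → ℂ := fun l => α l * x i ^ (d l - 1) / (α l₀ * x i ^ (d l₀ - 1)) with hα'
    refine ⟨(i, l₀), _, elim_eq (x := x') (α := α') ?_ ?_ ?_ ?_⟩
    · simp only [hx']
      field_simp
    · simp only [hα']
      field_simp
    · intro l
      rw [hx', eval_smul_hom (pert_hom hd hG₀ a l), h0 l, mul_zero]
    · intro j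
      have h2 : ∀ l, α' l * eval x' (pderiv j (pert d G₀ a l)) =
          (α l₀ * x i ^ (d l₀ - 1))⁻¹ * (α l * eval x (pderiv j (pert d G₀ a l))) := by
        intro l
        rw [hx', eval_smul_hom (pert_hom hd hG₀ a l).pderiv]
        simp only [hα', inv_pow]
        have h3 : x i ^ (d l - 1) ≠ 0 := pow_ne_zero _ hi
        have h4 : x i ^ (d l₀ - 1) ≠ 0 := pow_ne_zero _ hi
        generalize x i ^ (d l - 1) = z at h3
        generalize x i ^ (d l₀ - 1) = z' at h4
        field_simp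
      rw [Finset.sum_congr rfl fun l _ => h2 l, ← Finset.mul_sum, h1 j, mul_zero]

end

end Pool.Agent.H17S
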